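import Pool.Agent.H846.Plc.Codim

/-!
# The standard conjecture of Hodge type for a product from detection at places
-/

open CategoryTheory AlgebraicGeometry Finset

universe u v

namespace Pool.Agent.H846.Plc

open Pool.Agent.H914 Pool.Agent.H914.VarClass Pool.Agent.H914.VarClass.Obj
  Pool.Agent.H914.WeilCohomology Pool.Agent.H281R3.HT Pool.Agent.W552 Pool.Agent.W539.Ker
  Pool.Agent.R911.Iso Pool.Agent.H447 Pool.Agent.H846.Det

variable {k : Type u} [Field k] {𝒱 : VarClass k} {ops : CycleOps 𝒱}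
  {W : WeilCohomology.{u, v} ops}

section Adj

variable {k₀ : Type u} [Field k₀] {𝒱₀ : VarClass k₀} {ops₀ : CycleOps 𝒱₀}
  {W₀ : WeilCohomology.{u, v} ops₀} {P Q : Polarized 𝒱} {P₀ Q₀ : Polarized 𝒱₀}
  {σ : W.K ≃+* W₀.K} {s : W.H P.X ≃+* W₀.H P₀.X} {t : W.H Q.X ≃+* W₀.H Q₀.X}

/-- The adjoint of an operator at a place corresponds to the adjoint. -/
theorem rel_adj (hs : IsComparison W W₀ P P₀ σ s) (ht : IsComparison W W₀ Q Q₀ σ t)
    {f : Module.End W.K (W.H P.X)} (G : Gd W P.X P.D f)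
    {f₀ : Module.End W₀.K (W₀.H P₀.X)} (G₀ : Gd W₀ P₀.X P₀.D f₀)
    {g : Module.End W.K (W.H Q.X)} (G' : Gd W Q.X Q.D g)
    {g₀ : Module.End W₀.K (W₀.H Q₀.X)} (G₀' : Gd W₀ Q₀.X Q₀.D g₀)
    {u : W.H P.X →ₗ[W.K] W.H Q.X} {u' : W.H Q.X →ₗ[W.K] W.H P.X}
    {u₀ : W₀.H P₀.X →ₗ[W₀.K] W₀.H Q₀.X} {u₀' : W₀.H Q₀.X →ₗ[W₀.K] W₀.H P₀.X}
    (hu : Rel s t u u₀) (h : Adj W P.D f Q.D g u u') (h₀ : Adj W₀ P₀.D f₀ Q₀.D g₀ u₀ u₀') :
    Rel t s u' u₀' := by
  intro y
  rw [← sub_eq_zero]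
  apply G₀.nondeg
  intro x₀
  obtain ⟨x, rfl⟩ := s.surjective x₀
  rw [map_sub, bf_spec hs G G₀, ← h, ← h₀, ← hu, bf_spec ht G' G₀', sub_self]

end Adj

section Core

variable {P Q : Polarized 𝒱} {f : Module.End W.K (W.H P.X)} {g : Module.End W.K (W.H Q.X)}

/-- The functional attached to an idempotent polynomial without constant term. -/
theorem exists_posFun (G : Gd W P.X P.D f) (G' : Gd W Q.X Q.D g)
    {l : ℕ} (h_det : ∀ v, IsPartialIso W P.X Q.X l v → DetectedSomewhere W P Q l v)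
    {u : W.H P.X →ₗ[W.K] W.H Q.X} {u' : W.H Q.X →ₗ[W.K] W.H P.X} (hu : AOp W P.X Q.X u)
    (hu' : AOp W Q.X P.X u') (hadj : Adj W P.D f Q.D g u u')
    (hm : Hm W (2 * l - (P.X.prod Q.X).dim) u) {r : Polynomial ℚ} (hr0 : r.coeff 0 = 0)
    (hid : Det.ev (u' ∘ₗ u) r * Det.ev (u' ∘ₗ u) r = Det.ev (u' ∘ₗ u) r)
    (hne : Det.ev (u' ∘ₗ u) r ≠ 0) :
    ∃ φ : Polynomial ℚ →ₗ[ℚ] ℚ, PosFun φ ∧
      (∀ h, Det.ev (u' ∘ₗ u) h = 0 → φ h = 0) ∧ φ r ≠ 0 := by
  set a : Module.End W.K (W.H P.X) := u' ∘ₗ u with ha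
  have haop : AOp W P.X P.X a := hu'.comp hu
  have hself : Adj W P.D f P.D f a a := Adj.self G G' hadj hu
  have hm' := G.hm_adj G' hadj hm
  have ha0 : Hm W 0 a := by
    have := hm'.comp hm
    rwa [neg_add_cancel] at this
  obtain ⟨p, rfl⟩ : ∃ p, r = Polynomial.X * p := Polynomial.X_dvd_iff.2 hr0
  set e : Module.End W.K (W.H P.X) := Det.ev a (Polynomial.X * p) with he
  have hea : e = a * Det.ev a p := by rw [he, map_mul, Det.ev_X]
  have hpa : Det.ev a p * a = a * Det.ev a p := by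
    have := Det.ev_comm a p Polynomial.X
    rwa [Det.ev_X] at this
  have hcomm : e * a = a * e := by
    have := Det.ev_comm a (Polynomial.X * p) Polynomial.X
    rwa [Det.ev_X] at this
  have heaop : AOp W P.X P.X e := aop_ev haop _
  have hpaop : AOp W P.X P.X (Det.ev a p) := aop_ev haop _
  have hem : Hm W 0 e := hm_ev ha0 _
  have hpm : Hm W 0 (Det.ev a p) := hm_ev ha0 _
  have heself : Adj W P.D f P.D f e e := adj_ev hself _
  -- the partial isomorphism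
  set v : W.H P.X →ₗ[W.K] W.H Q.X := u ∘ₗ e with hv
  set v' : W.H Q.X →ₗ[W.K] W.H P.X := e ∘ₗ u' with hv'
  set w : W.H Q.X →ₗ[W.K] W.H P.X := Det.ev a p ∘ₗ v' with hw
  have hvadj : Adj W P.D f Q.D g v v' := Adj.comp heself hadj
  have hvv : v' ∘ₗ v = e * a := by
    apply LinearMap.ext
    intro x
    have h1 : (e * a * e) x = (e * a) x := by
      rw [mul_assoc, ← hcomm, ← mul_assoc, hid]
    exact h1
  have hwv : w ∘ₗ v = e := by
    rw [hw, LinearMap.comp_assoc, hvv]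
    change Det.ev a p * (e * a) = e
    rw [hcomm, ← mul_assoc, hpa, ← hea, hid]
  have hve : v ∘ₗ e = v := by
    rw [hv, LinearMap.comp_assoc]
    have : e ∘ₗ e = e := hid
    rw [this]
  have hv0 : v ≠ 0 := by
    intro h0
    apply hne
    rw [← hwv, h0, LinearMap.comp_zero]
  have hw0 : w ≠ 0 := by
    intro h0
    apply hne
    rw [← hwv, h0, LinearMap.zero_comp]
  have hvm : Hm W (2 * l - (P.X.prod Q.X).dim) v := by
    have := hm.comp hem
    simpa using this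
  have hwm : Hm W (-(2 * l - (P.X.prod Q.X).dim)) w := by
    have := hpm.comp (hem.comp hm')
    simpa using this
  obtain ⟨_, ⟨cv, hcv, rfl⟩, hcve⟩ := class_of_aop (hu.comp heaop) hvm
  obtain ⟨q, cw, hcw, hcwe⟩ := cyc_of_aop (hpaop.comp (heaop.comp hu')) hwm hw0
  have e1 : ∀ x, corrMap W cv x = v x := fun x => congrArg (fun T => T x) hcve
  have e2 : ∀ x, corrMap W cw x = w x := fun x => congrArg (fun T => T x) hcwe
  have hpi : IsPartialIso W P.X Q.X l cv := by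
    refine ⟨hcv, ?_, q, cw, hcw, ?_⟩
    · by_contra hc
      push Not at hc
      apply hv0
      apply LinearMap.ext
      intro x
      rw [← e1, hc, LinearMap.zero_apply]
    · intro x
      rw [e1, e2, e1]
      have h1 : w (v x) = e x := congrArg (fun T => T x) hwv
      rw [h1]
      exact congrArg (fun T => T x) hve
  obtain ⟨k₀, _, 𝒱₀, ops₀, W₀, P₀, Q₀, R, S, hP₀, hQ₀, hR, v₀, p₀, r₀, z, hv₀, hspec,
    hz, hpr, hr, hRP, hRQ, hnz⟩ := h_det cv hpi
  obtain ⟨f₀, G₀⟩ := exists_gd hP₀.isCyc hP₀.hard hP₀.std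
  obtain ⟨g₀, G₀'⟩ := exists_gd hQ₀.isCyc hQ₀.hard hQ₀.std
  obtain ⟨t₀, GR⟩ := exists_gd hR.isCyc hR.hard hR.std
  set V₀ := W₀.corr (W₀.cl _ v₀) with hV₀
  have hV₀a : AOp W₀ P₀.X Q₀.X V₀ := ⟨_, AS.of ⟨v₀, hv₀, rfl⟩, rfl⟩
  have hrv : Det.Rel S.s S.t v V₀ := by
    intro x
    rw [← e1 x]
    exact hspec x
  obtain ⟨V₀', hV₀'a, hV₀adj⟩ := G₀.adj G₀' hV₀a
  have hrv' : Det.Rel S.t S.s v' V₀' := rel_adj S.fst S.snd G G₀ G' G₀' hrv hvadj hV₀adj
  have hζ : AOp W₀ R.X P₀.X (W₀.corr (W₀.cl _ z)) := ⟨_, AS.of ⟨z, hz, rfl⟩, rfl⟩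
  obtain ⟨ζ', hζ', hζadj⟩ := GR.adj G₀ hζ
  have hwt : ∀ {X Y : 𝒱₀.Obj} {j : ℕ} {c : (X.prod Y).Cycles}, (X.prod Y).IsCyc j c →
      Hm W₀ (2 * j - (X.prod Y).dim) (W₀.corr (W₀.cl _ c)) := by
    intro X Y j c hc
    rw [hm_corr, Fr.wt_gr (W₀.cl_mem hc)]
    congr 1
    push_cast
    ring
  obtain ⟨ψ, hψ, hψ'⟩ := exists_functional_codim G₀ G₀' GR (p := p₀) (q := r₀) hRP hRQ hV₀a hV₀'a
    hV₀adj (hwt hv₀) hζ hζ' hζadj (hwt hz) (by
      rw [dim_prod, dim_prod, dim_prod]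
      push_cast
      have : (p₀ : ℤ) + l = r₀ + P₀.X.dim := by exact_mod_cast hpr
      linarith)
  have hra : Det.Rel S.s S.s (e * a) (V₀' ∘ₗ V₀) := by
    rw [← hvv]
    exact hrv'.comp hrv
  have hrev : ∀ q, Det.Rel S.s S.s (Det.ev (e * a) q) (Det.ev (V₀' ∘ₗ V₀) q) :=
    fun q => hra.ev S.fst.smul' q
  -- equal operators give equal values
  have hval : ∀ q q', Det.ev (e * a) q = Det.ev (e * a) q' → ψ q = ψ q' := by
    intro q q' hqq
    have h1 : Det.ev (V₀' ∘ₗ V₀) q = Det.ev (V₀' ∘ₗ V₀) q' := by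
      refine (hrev q).unique ?_
      rw [hqq]
      exact hrev q'
    have h2 := hψ' q
    rw [h1, ← hψ' q'] at h2
    exact_mod_cast h2
  -- the idempotent in terms of the compression
  have hre : Det.ev (e * a) (Polynomial.X * p) = e := by
    have h1 : Det.ev (e * a) (Polynomial.X * p) * e = e := by
      rw [ev_compress hid hcomm, ← he, hid]
    have h2 : Det.ev (e * a) (Polynomial.X * p) * e = Det.ev (e * a) (Polynomial.X * p) := by
      have h3 : e * a * e = e * a := by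
        rw [mul_assoc, ← hcomm, ← mul_assoc, hid]
      rw [mul_comm Polynomial.X p, map_mul, Det.ev_X, mul_assoc, h3]
    rw [← h2, h1]
  have hmul : ∀ h, Det.ev (e * a) (Polynomial.X * p * h) = Det.ev a h * e := by
    intro h
    rw [mul_comm, map_mul, hre, ev_compress hid hcomm]
  refine ⟨ψ ∘ₗ LinearMap.mulLeft ℚ (Polynomial.X * p), ⟨?_, ?_⟩, ?_, ?_⟩
  · intro h
    rw [LinearMap.comp_apply, LinearMap.mulLeft_apply,
      hval _ ((Polynomial.X * p * h) * (Polynomial.X * p * h))]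
    · exact hψ.sq _
    · rw [show (Polynomial.X * p * h) * (Polynomial.X * p * h) =
        Polynomial.X * p * (Polynomial.X * p * (h * h)) by ring, map_mul _ (Polynomial.X * p)
        (Polynomial.X * p * (h * h)), hre, map_mul _ (Polynomial.X * p) (h * h), hre,
        ← mul_assoc e e, hid]
  · intro h
    rw [LinearMap.comp_apply, LinearMap.mulLeft_apply,
      hval _ (Polynomial.X * ((Polynomial.X * p * h) * (Polynomial.X * p * h)))]
    · exact hψ.xsq _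
    · rw [show Polynomial.X * ((Polynomial.X * p * h) * (Polynomial.X * p * h)) =
        Polynomial.X * p * (Polynomial.X * p * (Polynomial.X * (h * h))) by ring,
        map_mul _ (Polynomial.X * p) (Polynomial.X * p * (Polynomial.X * (h * h))), hre,
        map_mul _ (Polynomial.X * p) (Polynomial.X * (h * h)), hre, ← mul_assoc e e, hid]
  · intro h hh
    rw [LinearMap.comp_apply, LinearMap.mulLeft_apply, hval _ 0, map_zero]
    rw [hmul, hh, zero_mul, map_zero]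
  · intro h0
    rw [LinearMap.comp_apply, LinearMap.mulLeft_apply] at h0
    have h1 := hψ.cs h0 Polynomial.X
    rw [hval _ Polynomial.X] at h1
    swap
    · rw [map_mul, hre, Det.ev_X, ← mul_assoc, hid]
    have h2 := hψ' Polynomial.X
    rw [h1, Rat.cast_zero, Det.ev_X] at h2
    apply hnz
    have hcz : (R.X.prod Q₀.X).IsCyc r₀ (compCyc ops₀ z v₀) := compCyc_mem hz hv₀ hpr
    have hcorr : W₀.corr (W₀.cl _ (compCyc ops₀ z v₀)) = V₀ ∘ₗ W₀.corr (W₀.cl _ z) := by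
      rw [corr_compCyc W₀ hv₀]
    refine numZero_of_trace GR G₀' hRQ hr hcz (T' := ζ' ∘ₗ V₀') ?_ ?_
    · rw [hcorr]
      exact Adj.comp hζadj hV₀adj
    · rw [hcorr]
      exact h2.symm

end Core

/-- Nonnegativity in codimension `l`. -/
theorem nonneg_of_places {P Q : Polarized 𝒱} {f : Module.End W.K (W.H P.X)}
    {g : Module.End W.K (W.H Q.X)} (G : Gd W P.X P.D f) (G' : Gd W Q.X Q.D g) {l : ℕ}
    (h_det : ∀ v, IsPartialIso W P.X Q.X l v → DetectedSomewhere W P Q l v)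
    {c : (P.X.prod Q.X).Cycles} (hc : (P.X.prod Q.X).IsCyc l c) :
    ∃ q : ℚ, 0 ≤ q ∧
      bf W (P.X.prod Q.X) (ops.pull (fst P.X Q.X) P.D + ops.pull (snd P.X Q.X) Q.D)
        (extSum W f g) (W.cl _ c) (W.cl _ c) = q := by
  have hc' : AS W _ (W.cl (P.X.prod Q.X) c) := AS.of ⟨c, hc, rfl⟩
  have hu : AOp W P.X Q.X (W.corr (W.cl (P.X.prod Q.X) c)) := ⟨_, hc', rfl⟩
  obtain ⟨u', hu', hadj⟩ := G.adj G' hu
  have htr := trace_adj G G' hc' hadj
  rw [← htr]
  set u := W.corr (W.cl (P.X.prod Q.X) c) with hudef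
  have haop : AOp W P.X P.X (u' ∘ₗ u) := hu'.comp hu
  have hm : Hm W (2 * l - (P.X.prod Q.X).dim) u := by
    rw [hudef, hm_corr, Fr.wt_gr (W.cl_mem hc)]
    congr 1
    push_cast
    ring
  refine (trace_nonneg (a := u' ∘ₗ u) (fun n => G.trace_rat (haop.pow n)) ?_).2
  intro g₁ he2 hne
  by_cases hg0 : g₁.coeff 0 = 0
  · exact exists_posFun G G' h_det hu hu' hadj hm hg0 he2 hne
  by_cases hann : ∀ h, Det.ev (u' ∘ₗ u) h = 0 → h.coeff 0 = 0
  · refine ⟨Polynomial.lcoeff ℚ 0, ⟨?_, ?_⟩, fun h hh => hann h hh, hg0⟩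
    · intro h
      rw [Polynomial.lcoeff_apply, Polynomial.mul_coeff_zero]
      exact mul_self_nonneg _
    · intro h
      rw [Polynomial.lcoeff_apply, Polynomial.mul_coeff_zero, Polynomial.coeff_X_zero, zero_mul]
  · push Not at hann
    obtain ⟨h₀, hh₀, hc0⟩ := hann
    set r := g₁ - (g₁.coeff 0 / h₀.coeff 0) • h₀ with hr
    have hrc : r.coeff 0 = 0 := by
      rw [hr, Polynomial.coeff_sub, Polynomial.coeff_smul, smul_eq_mul, div_mul_cancel₀ _ hc0,
        sub_self]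
    have hre : Det.ev (u' ∘ₗ u) r = Det.ev (u' ∘ₗ u) g₁ := by
      rw [hr, map_sub, ev_smul, hh₀, smul_zero, sub_zero]
    obtain ⟨φ, hφ, hφ0, hφr⟩ := exists_posFun G G' h_det hu hu' hadj hm hrc
      (by rw [hre]; exact he2) (by rw [hre]; exact hne)
    refine ⟨φ, hφ, hφ0, ?_⟩
    have h1 := hφ0 (g₁ - r) (by rw [map_sub, hre, sub_self])
    rw [map_sub, sub_eq_zero] at h1
    rw [h1]
    exact hφr

/-- **The standard conjecture of Hodge type for a product from the detection of the partial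
isomorphisms.** -/
theorem hodge_of_places (W : WeilCohomology.{u, v} ops) (P Q : Polarized 𝒱)
    (hP : IsLefschetz W P) (hQ : IsLefschetz W Q) (l : ℕ) (hl : 2 * l ≤ (P.X.prod Q.X).dim)
    (h_det : ∀ v, IsPartialIso W P.X Q.X l v → DetectedSomewhere W P Q l v) :
    HodgeUpTo W (P.prod ops Q) l := by
  obtain ⟨f, G⟩ := exists_gd hP.isCyc hP.hard hP.std
  obtain ⟨g, G'⟩ := exists_gd hQ.isCyc hQ.hard hQ.std
  have key : ∀ c, (P.X.prod Q.X).IsCyc l c → ∃ q : ℚ, 0 ≤ q ∧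
      bf W (P.X.prod Q.X) (ops.pull (fst P.X Q.X) P.D + ops.pull (snd P.X Q.X) Q.D)
        (extSum W f g) (W.cl _ c) (W.cl _ c) = q := by
    intro c hc
    exact nonneg_of_places G G' h_det hc
  refine hodgeUpTo_of_nonneg (P := P.prod ops Q) (gd_prod G G') hl ?_
  rintro _ ⟨c, hc, rfl⟩
  exact key c hc

end Pool.Agent.H846.Plc
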