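import Pool.Agent.H846.Plc.Defs
import Pool.Agent.H846.Det.Main
import Pool.Agent.H846.HKn.Strict

/-!
# The standard conjecture of Hodge type in one codimension of a product
-/

open CategoryTheory AlgebraicGeometry Finset

universe u v

namespace Pool.Agent.H846.Plc

open Pool.Agent.H914 Pool.Agent.H914.VarClass Pool.Agent.H914.VarClass.Obj
  Pool.Agent.H914.WeilCohomology Pool.Agent.H281R3.HT Pool.Agent.W552 Pool.Agent.W539.Ker
  Pool.Agent.R911.Iso Pool.Agent.H447 Pool.Agent.H846.Det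

section Alg

variable {K : Type*} [Field K] [CharZero K] {V : Type*} [AddCommGroup V] [Module K V]

/-- Polynomials in the compression of an operator by a commuting idempotent. -/
lemma ev_compress {a e : Module.End K V} (he : e * e = e) (hc : e * a = a * e)
    (h : Polynomial ℚ) : Det.ev (e * a) h * e = Det.ev a h * e := by
  induction h using Polynomial.induction_on' with
  | add p q hp hq => rw [map_add, map_add, add_mul, add_mul, hp, hq]
  | monomial n c =>
    have hcn : ∀ n : ℕ, e * a ^ n = a ^ n * e := by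
      intro n
      induction n with
      | zero => rw [pow_zero, mul_one, one_mul]
      | succ n ih => rw [pow_succ, ← mul_assoc, ih, mul_assoc, hc, ← mul_assoc]
    have h1 : ∀ n : ℕ, (e * a) ^ n * e = a ^ n * e := by
      intro n
      induction n with
      | zero => rw [pow_zero, pow_zero]
      | succ n ih =>
        rw [pow_succ', mul_assoc, ih, mul_assoc, ← mul_assoc a, ← pow_succ', ← mul_assoc,
          hcn, mul_assoc, he]
    rw [← Polynomial.smul_X_eq_monomial, ev_smul, ev_smul, map_pow, map_pow, Det.ev_X, Det.ev_X,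
      smul_mul_assoc, smul_mul_assoc, h1]

end Alg

variable {k : Type u} [Field k] {𝒱 : VarClass k} {ops : CycleOps 𝒱}
  {W : WeilCohomology.{u, v} ops} {A B R : 𝒱.Obj}

/-- Homogeneous algebraic operators are induced by homogeneous cycles. -/
lemma cyc_of_aop {u : W.H A →ₗ[W.K] W.H B} {m : ℤ} (h : AOp W A B u) (hm : Hm W m u)
    (hne : u ≠ 0) : ∃ (j : ℕ) (z : (A.prod B).Cycles), (A.prod B).IsCyc j z ∧
      W.corr (W.cl _ z) = u := by
  obtain ⟨c, hc, rfl⟩ := h
  rcases AS_wt (W := W) hc (m := m) (hm_corr.1 hm) with rfl | ⟨j, hj, hcj⟩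
  · exact (hne (corr_zero W)).elim
  · obtain ⟨z, hz, rfl⟩ := hcj
    exact ⟨j, z, hz, rfl⟩

lemma hm_ev {a : Module.End W.K (W.H A)} (ha : Hm W 0 a) (h : Polynomial ℚ) :
    Hm W 0 (Det.ev a h) := by
  induction h using Polynomial.induction_on' with
  | add p q hp hq => rw [map_add]; exact hp.add hq
  | monomial n c =>
    have h1 : ∀ n : ℕ, Hm W 0 (a ^ n) := by
      intro n
      induction n with
      | zero => exact Hm.one
      | succ n ih =>
        rw [pow_succ']
        have := ha.comp ih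
        rwa [add_zero] at this
    rw [← Polynomial.smul_X_eq_monomial, ev_smul, map_pow, Det.ev_X]
    exact (h1 n).smul _

/-- Homogeneous algebraic operators of a given weight. -/
lemma class_of_aop {u : W.H A →ₗ[W.K] W.H B} {p : ℕ} (h : AOp W A B u)
    (hm : Hm W (2 * p - (A.prod B).dim) u) : ∃ c ∈ algClasses W (A.prod B) p, W.corr c = u := by
  obtain ⟨c, hc, rfl⟩ := h
  rcases AS_wt (W := W) hc (m := 2 * p - (A.prod B).dim) (hm_corr.1 hm) with rfl | ⟨j, hj, hcj⟩
  · exact ⟨0, alg_zero p, rfl⟩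
  · have : j = p := by omega
    subst this
    exact ⟨c, hcj, rfl⟩

variable {D : A.Cycles} {f : Module.End W.K (W.H A)} {E : B.Cycles}
  {g : Module.End W.K (W.H B)} {C : R.Cycles} {r : Module.End W.K (W.H R)}

/-- The trace of `u' u` is nonnegative under the standard conjecture of Hodge type in the
corresponding codimensions. -/
theorem trace_nonneg_codim (G : Gd W A D f) (G' : Gd W B E g) {p : ℕ}
    (hH : ∀ n ≤ p, 2 * n ≤ (A.prod B).dim → ∀ z,
      Primitive W (A.prod B) (ops.pull (fst A B) D + ops.pull (snd A B) E) n z →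
      ¬ NumZero ops (A.prod B) n z →
      0 < pairing ops (A.prod B) (ops.pull (fst A B) D + ops.pull (snd A B) E) n z z)
    {u : W.H A →ₗ[W.K] W.H B} (hu : AOp W A B u) (hm : Hm W (2 * p - (A.prod B).dim) u)
    {u' : W.H B →ₗ[W.K] W.H A} (hadj : Adj W D f E g u u') :
    ∃ q : ℚ, 0 ≤ q ∧ LinearMap.trace W.K (W.H A) (u' ∘ₗ u) = q := by
  obtain ⟨c, hc, rfl⟩ := class_of_aop hu hm
  rw [trace_adj G G' (AS.of hc) hadj]
  exact HKn.bf_nonneg_le (gd_prod G G').fr hH hc

/-- The inequality of Cauchy and Schwarz in one codimension. -/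
theorem bf_cs_codim (G : Gd W A D f) {l : ℕ}
    (hnn : ∀ c ∈ algClasses W A l, ∃ q : ℚ, 0 ≤ q ∧ bf W A D f c c = q) {x y : W.H A}
    (hx : x ∈ algClasses W A l) (hy : AS W A y) (h0 : bf W A D f x x = 0) :
    bf W A D f x y = 0 := by
  refine AS.ind (p := fun y => bf W A D f x y = 0) ?_ ?_ hy
  · intro j y hy
    by_cases hj : j = l
    · subst hj
      exact HKn.cs_deg G hnn hx hy h0
    · exact G.fr.bf_deg (alg_gr hx) (alg_gr hy) (by omega)
  · intro y y' h h'
    rw [map_add, h, h', add_zero]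

/-- If the trace of `T' T` is zero for the operator `T` of a cycle, then this cycle is numerically
equivalent to zero. -/
lemma numZero_of_trace (GR : Gd W R C r) (GB : Gd W B E g) {p : ℕ}
    (hB : ∀ n ≤ p, 2 * n ≤ (R.prod B).dim → ∀ z,
      Primitive W (R.prod B) (ops.pull (fst R B) C + ops.pull (snd R B) E) n z →
      ¬ NumZero ops (R.prod B) n z →
      0 < pairing ops (R.prod B) (ops.pull (fst R B) C + ops.pull (snd R B) E) n z z)
    (hp : p ≤ (R.prod B).dim) {z : (R.prod B).Cycles} (hz : (R.prod B).IsCyc p z)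
    {T' : W.H B →ₗ[W.K] W.H R} (hadj : Adj W C r E g (W.corr (W.cl _ z)) T')
    (h0 : LinearMap.trace W.K (W.H R) (T' ∘ₗ W.corr (W.cl _ z)) = 0) :
    NumZero ops (R.prod B) p z := by
  have hzc : W.cl _ z ∈ algClasses W (R.prod B) p := ⟨z, hz, rfl⟩
  have h1 := trace_adj GR GB (AS.of hzc) hadj
  rw [h0] at h1
  have GP := gd_prod GR GB
  apply numZero_of_bf GP hp hz
  intro y hy
  exact bf_cs_codim GP (fun c hc => HKn.bf_nonneg_le GP.fr hB hc) hzc hy h1.symm

/-- **The functional attached to an algebraic class of a given codimension.** -/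
theorem exists_functional_codim (GA : Gd W A D f) (GB : Gd W B E g) (GR : Gd W R C r) {p q : ℕ}
    (hA : ∀ n ≤ p, 2 * n ≤ (R.prod A).dim → ∀ z,
      Primitive W (R.prod A) (ops.pull (fst R A) C + ops.pull (snd R A) D) n z →
      ¬ NumZero ops (R.prod A) n z →
      0 < pairing ops (R.prod A) (ops.pull (fst R A) C + ops.pull (snd R A) D) n z z)
    (hB : ∀ n ≤ q, 2 * n ≤ (R.prod B).dim → ∀ z,
      Primitive W (R.prod B) (ops.pull (fst R B) C + ops.pull (snd R B) E) n z →
      ¬ NumZero ops (R.prod B) n z →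
      0 < pairing ops (R.prod B) (ops.pull (fst R B) C + ops.pull (snd R B) E) n z z)
    {u : W.H A →ₗ[W.K] W.H B} {u' : W.H B →ₗ[W.K] W.H A} (hu : AOp W A B u)
    (hu' : AOp W B A u') (hadj : Adj W D f E g u u') {m : ℤ} (hum : Hm W m u)
    {z : W.H R →ₗ[W.K] W.H A} {z' : W.H A →ₗ[W.K] W.H R} (hz : AOp W R A z)
    (hz' : AOp W A R z') (hzadj : Adj W C r D f z z') (hzm : Hm W (2 * p - (R.prod A).dim) z)
    (hpq : 2 * (p : ℤ) - (R.prod A).dim + m = 2 * q - (R.prod B).dim) :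
    ∃ φ : Polynomial ℚ →ₗ[ℚ] ℚ, PosFun φ ∧
      ∀ h, ((φ h : ℚ) : W.K) = LinearMap.trace W.K (W.H R) (z' ∘ₗ Det.ev (u' ∘ₗ u) h ∘ₗ z) := by
  have haop : AOp W A A (u' ∘ₗ u) := hu'.comp hu
  have hself : Adj W D f D f (u' ∘ₗ u) (u' ∘ₗ u) := Adj.self GA GB hadj hu
  have ha0 : Hm W 0 (u' ∘ₗ u) := by
    have := (GA.hm_adj GB hadj hum).comp hum
    rwa [neg_add_cancel] at this
  have hrat : ∀ h, ∃ q : ℚ,
      LinearMap.trace W.K (W.H R) (z' ∘ₗ Det.ev (u' ∘ₗ u) h ∘ₗ z) = q :=
    fun h => GR.trace_rat (hz'.comp ((aop_ev haop h).comp hz))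
  choose φ hφ using hrat
  let ψ : Polynomial ℚ →ₗ[ℚ] ℚ :=
    { toFun := φ
      map_add' := by
        intro p q
        apply Rat.cast_injective (α := W.K)
        rw [Rat.cast_add, ← hφ, ← hφ, ← hφ, map_add, LinearMap.add_comp, LinearMap.comp_add,
          map_add]
      map_smul' := by
        intro c p
        apply Rat.cast_injective (α := W.K)
        rw [RingHom.id_apply, smul_eq_mul, Rat.cast_mul, ← hφ, ← hφ, ev_smul,
          LinearMap.smul_comp, LinearMap.comp_smul, map_smul, smul_eq_mul] }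
  have hψ : ∀ h, ψ h = φ h := fun h => rfl
  refine ⟨ψ, ⟨?_, ?_⟩, fun h => (hφ h).symm⟩
  · intro h
    have h1 : Adj W C r D f (Det.ev (u' ∘ₗ u) h ∘ₗ z) (z' ∘ₗ Det.ev (u' ∘ₗ u) h) :=
      hzadj.comp (adj_ev hself h)
    have hm1 : Hm W (2 * p - (R.prod A).dim) (Det.ev (u' ∘ₗ u) h ∘ₗ z) := by
      have := (hm_ev ha0 h).comp hzm
      simpa using this
    obtain ⟨q, hq0, hq⟩ := trace_nonneg_codim GR GA hA ((aop_ev haop h).comp hz) hm1 h1
    have h2 : (z' ∘ₗ Det.ev (u' ∘ₗ u) h) ∘ₗ (Det.ev (u' ∘ₗ u) h ∘ₗ z) =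
        z' ∘ₗ Det.ev (u' ∘ₗ u) (h * h) ∘ₗ z := by
      rw [map_mul]; rfl
    rw [h2, hφ] at hq
    rw [hψ, show φ (h * h) = q by exact_mod_cast hq]
    exact hq0
  · intro h
    have h1 : Adj W C r E g (u ∘ₗ (Det.ev (u' ∘ₗ u) h ∘ₗ z))
        ((z' ∘ₗ Det.ev (u' ∘ₗ u) h) ∘ₗ u') :=
      (hzadj.comp (adj_ev hself h)).comp hadj
    have hm1 : Hm W (2 * q - (R.prod B).dim) (u ∘ₗ (Det.ev (u' ∘ₗ u) h ∘ₗ z)) := by
      have := hum.comp ((hm_ev ha0 h).comp hzm)
      rw [← hpq]
      simpa [add_comm] using this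
    obtain ⟨q, hq0, hq⟩ := trace_nonneg_codim GR GB hB
      (hu.comp ((aop_ev haop h).comp hz)) hm1 h1
    have h2 : ((z' ∘ₗ Det.ev (u' ∘ₗ u) h) ∘ₗ u') ∘ₗ (u ∘ₗ (Det.ev (u' ∘ₗ u) h ∘ₗ z)) =
        z' ∘ₗ Det.ev (u' ∘ₗ u) (Polynomial.X * (h * h)) ∘ₗ z := by
      rw [show Polynomial.X * (h * h) = h * (Polynomial.X * h) by ring, map_mul, map_mul, Det.ev_X]
      rfl
    rw [h2, hφ] at hq
    rw [hψ, show φ (Polynomial.X * (h * h)) = q by exact_mod_cast hq]
    exact hq0

/-- Nonnegativity in codimension `l` implies the standard conjecture of Hodge type in the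
codimensions at most `l`. -/
theorem hodgeUpTo_of_nonneg {P : Polarized 𝒱} {f : Module.End W.K (W.H P.X)}
    (G : Gd W P.X P.D f) {l : ℕ} (hl : 2 * l ≤ P.X.dim)
    (hnn : ∀ c ∈ algClasses W P.X l, ∃ q : ℚ, 0 ≤ q ∧ bf W P.X P.D f c c = q) :
    HodgeUpTo W P l := by
  intro n hn hn2
  apply HKn.strict_of_nonneg G hn2
  intro z hz
  have h1 := bf_same G.fr hn2 hz hz (j := l - n) (by omega)
  have h2 : ((LinearMap.mulLeft W.K (W.cl P.X P.D)) ^ (l - n)) (W.cl P.X z) ∈
      algClasses W P.X l := by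
    rw [← cl_divPow]
    refine ⟨_, ?_, rfl⟩
    have := divPow_mem (ops := ops) G.fr.hD (l - n) hz.1
    rwa [show n + (l - n) = l by omega] at this
  obtain ⟨q, hq0, hq⟩ := hnn _ h2
  rw [hq] at h1
  have h3 : q = ((l - n).factorial * ((P.X.dim - 2 * n - (l - n)).factorial : ℚ)⁻¹) *
      pairing ops P.X P.D n z z := by exact_mod_cast h1
  rw [h3] at hq0
  exact nonneg_of_mul_nonneg_right hq0 (by positivity)

end Pool.Agent.H846.Plc
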