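import Pool.Agent.H846.Det.Defs
import Pool.Graph.R_pool_sql_team_seeded_b0a926ef.R911.Iso.Defs

/-!
# Detection of partial isomorphisms at places: definitions
-/

open CategoryTheory AlgebraicGeometry

universe u v

namespace Pool.Agent.H846.Plc

open Pool.Agent.H914 Pool.Agent.H914.VarClass Pool.Agent.H914.VarClass.Obj
  Pool.Agent.H281R3.HT Pool.Agent.R911.Iso Pool.Agent.W539.Ker Pool.Agent.H846.Det

variable {k : Type u} [Field k] {𝒱 : VarClass k} {ops : CycleOps 𝒱}
  {k₀ : Type u} [Field k₀] {𝒱₀ : VarClass k₀} {ops₀ : CycleOps 𝒱₀}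

/-- The cycle `v` of codimension `l` on `X × Y` is a partial isomorphism from `X` to `Y`: its
operator on the cohomology is not zero, and it has a pseudo-inverse, that is a cycle `w` on
`Y × X` with `v ∘ w ∘ v = v` in cohomology (so that `v` induces an isomorphism between direct
summands of the motives of `X` and `Y`). -/
structure IsPartialIso (W : WeilCohomology.{u, v} ops) (X Y : 𝒱.Obj) (l : ℕ)
    (v : (X.prod Y).Cycles) : Prop where
  isCyc : (X.prod Y).IsCyc l v
  ne : ∃ a, corrMap W v a ≠ 0
  inv : ∃ (q : ℕ) (w : (Y.prod X).Cycles), (Y.prod X).IsCyc q w ∧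
    ∀ a, corrMap W v (corrMap W w (corrMap W v a)) = corrMap W v a

/-- A place of the pair of the polarized varieties `P` and `Q` over `k`: polarized varieties `P₀`
and `Q₀` over another field `k₀` together with comparison isomorphisms of the cohomology rings.
The varieties `X₀` and `Y₀` can be specialisations of `X` and `Y`, or `X` and `Y` can be
specialisations of `X₀` and `Y₀` (liftings), or both can be joined by a chain of these. It is not
assumed that algebraic cycles correspond to algebraic cycles. -/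
structure Place (W : WeilCohomology.{u, v} ops) (W₀ : WeilCohomology.{u, v} ops₀)
    (P Q : Polarized 𝒱) (P₀ Q₀ : Polarized 𝒱₀) where
  /-- the isomorphism of the coefficient fields -/
  σ : CoefIso W W₀
  /-- the comparison isomorphism for the first variety -/
  s : CohIso W W₀ P.X P₀.X
  /-- the comparison isomorphism for the second variety -/
  t : CohIso W W₀ Q.X Q₀.X
  fst : IsComparison W W₀ P P₀ σ s
  snd : IsComparison W W₀ Q Q₀ σ t

/-- The standard conjecture of Hodge type in codimension `n` for the polarized variety `P`: the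
number `(-1) ^ n deg (z · D ^ (dim X - 2 n) · z)` is positive for all primitive cycles `z` of
codimension `n` which are not numerically equivalent to zero. -/
def HodgeIn (W : WeilCohomology.{u, v} ops) (P : Polarized 𝒱) (n : ℕ) : Prop :=
  ∀ z, Primitive W P.X P.D n z → ¬ NumZero ops P.X n z → 0 < pairing ops P.X P.D n z z

/-- The standard conjecture of Hodge type for `P` in the codimensions `n ≤ l` (with
`2 n ≤ dim X`). -/
def HodgeUpTo (W : WeilCohomology.{u, v} ops) (P : Polarized 𝒱) (l : ℕ) : Prop :=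
  ∀ n ≤ l, 2 * n ≤ P.X.dim → HodgeIn W P n

/-- The correspondence `v` of codimension `l` from `X` to `Y` is detected by a cycle `z` of
codimension `p` on `Z × X₀` at a place `(X₀, Y₀)`: `v` corresponds to a correspondence `v₀` from
`X₀` to `Y₀`, the composition of the correspondence `z` from `Z` to `X₀` with `v₀` (a cycle of
codimension `r` on `Z × Y₀`) is not numerically equivalent to zero, and the standard conjecture of
Hodge type holds for `Z × X₀` in the codimensions at most `p` and for `Z × Y₀` in the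
codimensions at most `r`. -/
def DetectedAt {W : WeilCohomology.{u, v} ops} {W₀ : WeilCohomology.{u, v} ops₀}
    {P Q : Polarized 𝒱} {P₀ Q₀ : Polarized 𝒱₀} (S : Place W W₀ P Q P₀ Q₀)
    (Z : Polarized 𝒱₀) (l : ℕ) (v : (P.X.prod Q.X).Cycles) : Prop :=
  ∃ (v₀ : (P₀.X.prod Q₀.X).Cycles) (p r : ℕ) (z : (Z.X.prod P₀.X).Cycles),
    (P₀.X.prod Q₀.X).IsCyc l v₀ ∧ SpecializesTo S.s S.t v v₀ ∧
    (Z.X.prod P₀.X).IsCyc p z ∧ p + l = r + P₀.X.dim ∧ r ≤ (Z.X.prod Q₀.X).dim ∧
    HodgeUpTo W₀ (Z.prod ops₀ P₀) p ∧ HodgeUpTo W₀ (Z.prod ops₀ Q₀) r ∧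
    ¬ NumZero ops₀ (Z.X.prod Q₀.X) r (compCyc ops₀ z v₀)

/-- The correspondence `v` of codimension `l` from `X` to `Y` is detected: there are a place
`(X₀, Y₀)` and a variety `Z` over some field `k₀`, all satisfying the Lefschetz standard
conjecture, such that `v` is detected by an algebraic cycle on `Z × X₀`. -/
def DetectedSomewhere (W : WeilCohomology.{u, v} ops) (P Q : Polarized 𝒱) (l : ℕ)
    (v : (P.X.prod Q.X).Cycles) : Prop :=
  ∃ (k₀ : Type u) (_ : Field k₀) (𝒱₀ : VarClass k₀) (ops₀ : CycleOps 𝒱₀)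
    (W₀ : WeilCohomology.{u, v} ops₀) (P₀ Q₀ Z : Polarized 𝒱₀)
    (S : Place W W₀ P Q P₀ Q₀),
    IsLefschetz W₀ P₀ ∧ IsLefschetz W₀ Q₀ ∧ IsLefschetz W₀ Z ∧ DetectedAt S Z l v

end Pool.Agent.H846.Plc
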