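import Pool.Agent.H846.Plc.IrrDefs
import Pool.Agent.H846.Hdt.Irr

/-!
# Surfaces whose transcendental classes are reached by divisors at places, for the standard
conjecture of Hodge type modulo numerical equivalence
-/

open CategoryTheory AlgebraicGeometry

universe u v

namespace Pool.Agent.H846.Plc

open Pool.Agent.H914 Pool.Agent.H914.VarClass Pool.Agent.H914.VarClass.Obj
  Pool.Agent.H914.WeilCohomology Pool.Agent.H281R3.HT Pool.Agent.W552 Pool.Agent.W539.Ker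
  Pool.Agent.R911.Iso Pool.Agent.H447 Pool.Agent.H846.Det Pool.Agent.H846.Deg2
  Pool.Agent.H846.Hdt

section Num

variable {k₀ : Type u} [Field k₀] {𝒱₀ : VarClass k₀} {ops₀ : CycleOps 𝒱₀}
  {W₀ : WeilCohomology.{u, v} ops₀} {P₀ Q₀ R : Polarized 𝒱₀}

/-- If `w v z` does not vanish in cohomology, then `v z` is not numerically trivial. -/
theorem not_numZero_comp (hP : IsLefschetz W₀ P₀) (hQ : IsLefschetz W₀ Q₀) (hR : IsLefschetz W₀ R)
    {l p q r : ℕ} {v : (P₀.X.prod Q₀.X).Cycles} (hv : (P₀.X.prod Q₀.X).IsCyc l v)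
    {w : (Q₀.X.prod P₀.X).Cycles} (hw : (Q₀.X.prod P₀.X).IsCyc q w)
    (hql : q + l = (P₀.X.prod Q₀.X).dim)
    {z : (R.X.prod P₀.X).Cycles} (hz : (R.X.prod P₀.X).IsCyc p z) (hpr : p + l = r + P₀.X.dim)
    (hH : HomHodgeUpTo W₀ (R.prod ops₀ P₀) p) (hr : r ≤ (R.X.prod Q₀.X).dim) {y : W₀.H R.X}
    (hy : corrMap W₀ w (corrMap W₀ v (corrMap W₀ z y)) ≠ 0) :
    ¬ NumZero ops₀ (R.X.prod Q₀.X) r (compCyc ops₀ z v) := by
  intro hnum
  obtain ⟨f, G⟩ := exists_gd hP.isCyc hP.hard hP.std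
  obtain ⟨g, G'⟩ := exists_gd hQ.isCyc hQ.hard hQ.std
  obtain ⟨t₀, GR⟩ := exists_gd hR.isCyc hR.hard hR.std
  set V := W₀.corr (W₀.cl _ v) with hV
  set V' := W₀.corr (W₀.cl _ w) with hV'
  set ζ := W₀.corr (W₀.cl _ z) with hζ
  have hVa : AOp W₀ P₀.X Q₀.X V := ⟨_, AS.of ⟨v, hv, rfl⟩, rfl⟩
  have hV'a : AOp W₀ Q₀.X P₀.X V' := ⟨_, AS.of ⟨w, hw, rfl⟩, rfl⟩
  have hζa : AOp W₀ R.X P₀.X ζ := ⟨_, AS.of ⟨z, hz, rfl⟩, rfl⟩
  have hta : AOp W₀ R.X P₀.X (V' ∘ₗ V ∘ₗ ζ) := hV'a.comp (hVa.comp hζa)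
  have htm : Hm W₀ (2 * p - (R.X.prod P₀.X).dim) (V' ∘ₗ V ∘ₗ ζ) := by
    have h1 := (hm_cyc (W := W₀) hw).comp ((hm_cyc (W := W₀) hv).comp (hm_cyc (W := W₀) hz))
    have h2 : (2 * (p : ℤ) - (R.X.prod P₀.X).dim) + (2 * (l : ℤ) - (P₀.X.prod Q₀.X).dim) +
        (2 * (q : ℤ) - (Q₀.X.prod P₀.X).dim) = 2 * p - (R.X.prod P₀.X).dim := by
      rw [dim_prod, dim_prod, dim_prod]
      rw [dim_prod] at hql
      push_cast
      have : (q : ℤ) + l = P₀.X.dim + Q₀.X.dim := by exact_mod_cast hql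
      linarith
    convert h1 using 1
    linarith
  obtain ⟨c', hc', hcc'⟩ := class_of_aop hta htm
  have hc0 : c' ≠ 0 := by
    rintro rfl
    apply hy
    change (V' ∘ₗ V ∘ₗ ζ) y = 0
    rw [← hcc', corr_zero, LinearMap.zero_apply]
  obtain ⟨q', hq', hqq'⟩ := bf_pos_codim (gd_prod GR G).fr (l := p) (j := p) (Or.inl le_rfl) hH
    hc' hc0
  obtain ⟨T', hT'a, hT'⟩ := GR.adj G hta
  have h1 : LinearMap.trace W₀.K (W₀.H R.X) (T' ∘ₗ W₀.corr c') = q' := by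
    rw [trace_adj GR G (AS.of hc') (by rw [hcc']; exact hT')]
    exact hqq'
  -- the adjoint of `T' w`
  have hs : AOp W₀ Q₀.X R.X (T' ∘ₗ V') := hT'a.comp hV'a
  obtain ⟨s', hs'a, hs'⟩ := G'.adj GR hs
  have hs'' := Adj.symm G' GR hs' hs
  obtain ⟨cs, hcs, hcse⟩ := hs'a
  have hcz : (R.X.prod Q₀.X).IsCyc r (compCyc ops₀ z v) := compCyc_mem hz hv hpr
  have hcorr : W₀.corr (W₀.cl _ (compCyc ops₀ z v)) = V ∘ₗ ζ := by
    rw [corr_compCyc W₀ hv]
  have hcza : AS W₀ _ (W₀.cl (R.X.prod Q₀.X) (compCyc ops₀ z v)) := AS.of ⟨_, hcz, rfl⟩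
  have h3 := GR.trace_corr G' hcza hcs (by rw [hcse]; exact hs'')
  rw [hcorr] at h3
  rw [bf_symm (gd_prod GR G') hcza, bf_of_numZero (gd_prod GR G') hr hcz hnum hcs] at h3
  have h4 : (T' ∘ₗ V') ∘ₗ (V ∘ₗ ζ) = T' ∘ₗ W₀.corr c' := by
    rw [hcc']
    rfl
  rw [h4, h1] at h3
  exact hq'.ne' (by exact_mod_cast h3)

end Num

variable {k : Type u} [Field k] {𝒱 : VarClass k} {ops : CycleOps 𝒱}
  {W : WeilCohomology.{u, v} ops} {P Q : Polarized 𝒱} {l : ℕ}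

/-- The pseudo-inverse of a partial isomorphism has the complementary codimension. -/
lemma codim_inv {v : (P.X.prod Q.X).Cycles} (hv : (P.X.prod Q.X).IsCyc l v)
    (hne : W.corr (W.cl _ v) ≠ 0) {q : ℕ} {w : (Q.X.prod P.X).Cycles}
    (hw : (Q.X.prod P.X).IsCyc q w)
    (h : ∀ a, corrMap W v (corrMap W w (corrMap W v a)) = corrMap W v a) :
    q + l = (P.X.prod Q.X).dim := by
  have h1 := hm_cyc (W := W) hv
  have h2 := (hm_cyc (W := W) hv).comp ((hm_cyc (W := W) hw).comp (hm_cyc (W := W) hv))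
  have h3 : W.corr (W.cl _ v) ∘ₗ W.corr (W.cl _ w) ∘ₗ W.corr (W.cl _ v) = W.corr (W.cl _ v) :=
    LinearMap.ext h
  rw [h3] at h2
  obtain ⟨j, z, hz, hzv⟩ : ∃ (j : ℕ) (z : (P.X.prod Q.X).Cycles), (P.X.prod Q.X).IsCyc j z ∧
      W.corr (W.cl _ z) = W.corr (W.cl _ v) := ⟨l, v, hv, rfl⟩
  have key : ∀ m m' : ℤ, Hm W m (W.corr (W.cl _ v)) → Hm W m' (W.corr (W.cl _ v)) → m = m' := by
    intro m m' hm hm'
    by_contra hmm
    apply hne
    rw [Hm] at hm hm'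
    rw [hm] at hm'
    have h5 : (m : W.K) • W.corr (W.cl _ v) = (m' : W.K) • W.corr (W.cl _ v) :=
      add_left_cancel hm'
    apply LinearMap.ext
    intro x
    have h6 : (m : W.K) • W.corr (W.cl _ v) x = (m' : W.K) • W.corr (W.cl _ v) x :=
      congrArg (fun F => F x) h5
    have h7 : ((m : W.K) - (m' : W.K)) • W.corr (W.cl _ v) x = 0 := by
      rw [sub_smul, h6, sub_self]
    rcases smul_eq_zero.1 h7 with h8 | h8
    · exact absurd (by exact_mod_cast sub_eq_zero.1 h8) hmm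
    · exact h8
  have h4 := key _ _ h1 h2
  rw [dim_prod, dim_prod] at h4
  rw [dim_prod]
  push_cast at h4
  omega

/-- Numerical equivalence on `Z × Y`, `Z` a point. -/
lemma numZero_point (W : WeilCohomology.{u, v} ops) {Z Y : 𝒱.Obj} (hZ : Z.dim = 0) {n : ℕ}
    (hn : n ≤ Y.dim) {z : (Z.prod Y).Cycles} (hz : (Z.prod Y).IsCyc n z)
    (h : NumZero ops Y n (ops.push (snd Z Y) z)) : NumZero ops (Z.prod Y) n z := by
  have hdim : (Z.prod Y).dim = Y.dim := by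
    change Z.dim + Y.dim = Y.dim
    omega
  have hwc : Y.IsCyc n (ops.push (snd Z Y) z) :=
    ops.push_mem (snd Z Y) hz (by rw [hdim, add_comm])
  intro t ht
  have h1 := ops.mul_mem hz ht
  rw [show n + ((Z.prod Y).dim - n) = (Z.prod Y).dim by omega] at h1
  have h2 := W.tr_cl h1
  have h3 : Y.IsCyc (Y.dim - n) (ops.push (snd Z Y) t) :=
    ops.push_mem (snd Z Y) ht (by rw [hdim])
  have h4 := h _ h3
  have h5 := ops.mul_mem hwc h3
  rw [show n + (Y.dim - n) = Y.dim by omega] at h5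
  have h6 := W.tr_cl h5
  rw [h4, Rat.cast_zero, W.cl_mul] at h6
  rw [W.cl_mul, eq_map_snd hZ (W.cl (Z.prod Y) z), eq_map_snd hZ (W.cl (Z.prod Y) t), ← map_mul,
    ← W.cl_push, ← W.cl_push] at h2
  have h7 := W.tr_prod (X := Z) (Y := Y) 1
    (W.cl Y (ops.push (snd Z Y) z) * W.cl Y (ops.push (snd Z Y) t))
  rw [map_one, one_mul, tr_one hZ, one_mul, h6] at h7
  rw [h7] at h2
  exact_mod_cast h2.symm

/-- The numerical standard conjecture of Hodge type for `Z × Y`, `Z` a point. -/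
lemma hodge_point_num {Z : 𝒱.Obj} (hZ : Z.dim = 0) (hQ : Q.X.IsCyc 1 Q.D) (h : HodgeUpTo W Q l) :
    HodgeUpTo W ((⟨Z, 0⟩ : Polarized 𝒱).prod ops Q) l := by
  intro n hn hn2 z hz hz0
  have hE : W.cl (Z.prod Q.X) (ops.pull (fst Z Q.X) 0 + ops.pull (snd Z Q.X) Q.D) =
      W.map (snd Z Q.X) (W.cl Q.X Q.D) := by
    rw [map_add, W.cl_pull, W.cl_pull, map_zero, map_zero, zero_add]
  have hE1 : (Z.prod Q.X).IsCyc 1 (ops.pull (fst Z Q.X) 0 + ops.pull (snd Z Q.X) Q.D) :=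
    SmVar.IsCyc.add (ops.pull_mem _ (SmVar.IsCyc.zero _ _)) (ops.pull_mem _ hQ)
  have hn2' : 2 * n ≤ Q.X.dim := by
    change 2 * n ≤ Z.dim + Q.X.dim at hn2
    omega
  exact pairing_point_aux hZ hQ hE1 hE hz (fun hwp => h n hn hn2' _ hwp
    (fun hnum => hz0 (numZero_point W hZ (by omega) hz.1 hnum))) hn2'

/-- At a place to which all cycles on `X × Y` and `Y × X` specialise the class `x` of `X`
corresponds to a class `z(y)`, where `z` is an algebraic cycle of codimension `p` on `Z × X₀`. -/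
def NumAlgebraicAt {k₀ : Type u} [Field k₀] {𝒱₀ : VarClass k₀} {ops₀ : CycleOps 𝒱₀}
    {W₀ : WeilCohomology.{u, v} ops₀} {P₀ Q₀ : Polarized 𝒱₀} (S : Place W W₀ P Q P₀ Q₀)
    (Z : Polarized 𝒱₀) (l : ℕ) (x : W.H P.X) : Prop :=
  CorrespondencesSpecialize S.s S.t ∧ CorrespondencesSpecialize S.t S.s ∧
  ∃ (p r : ℕ) (z : (Z.X.prod P₀.X).Cycles) (y : W₀.H Z.X),
    (Z.X.prod P₀.X).IsCyc p z ∧ p + l = r + P₀.X.dim ∧
    HomHodgeUpTo W₀ (Z.prod ops₀ P₀) p ∧ HodgeUpTo W₀ (Z.prod ops₀ Q₀) r ∧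
    isoMap S.s x = corrMap W₀ z y

/-- The class `x` becomes algebraic. -/
def NumBecomes (W : WeilCohomology.{u, v} ops) (P Q : Polarized 𝒱) (l : ℕ) (x : W.H P.X) : Prop :=
  ∃ (k₀ : Type u) (_ : Field k₀) (𝒱₀ : VarClass k₀) (ops₀ : CycleOps 𝒱₀)
    (W₀ : WeilCohomology.{u, v} ops₀) (P₀ Q₀ Z : Polarized 𝒱₀)
    (S : Place W W₀ P Q P₀ Q₀),
    IsLefschetz W₀ P₀ ∧ IsLefschetz W₀ Q₀ ∧ IsLefschetz W₀ Z ∧ NumAlgebraicAt S Z l x

/-- Partial isomorphisms which do not kill a class that becomes algebraic are detected. -/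
theorem detected_of_numBecomes {v : (P.X.prod Q.X).Cycles} (hv : IsPartialIso W P.X Q.X l v)
    {x : W.H P.X} (hx : NumBecomes W P Q l x) (hvx : corrMap W v x ≠ 0) :
    DetectedSomewhere W P Q l v := by
  obtain ⟨k₀, _, 𝒱₀, ops₀, W₀, P₀, Q₀, Z, S, hP₀, hQ₀, hZ, hst, hts, p, r, z, y, hz, hpr, hZP, hZQ,
    hxy⟩ := hx
  obtain ⟨q, w, hw, hvw⟩ := hv.inv
  have hne : W.corr (W.cl _ v) ≠ 0 := by
    intro h0
    obtain ⟨a, ha⟩ := hv.ne
    apply ha
    change W.corr (W.cl _ v) a = 0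
    rw [h0, LinearMap.zero_apply]
  have hql := codim_inv hv.isCyc hne hw hvw
  obtain ⟨v₀, hv₀, hvv⟩ := hst l v hv.isCyc
  obtain ⟨w₀, hw₀, hww⟩ := hts q w hw
  have hwv : corrMap W w (corrMap W v x) ≠ 0 := by
    intro h0
    apply hvx
    rw [← hvw x, h0]
    exact map_zero _
  have hne₀ : corrMap W₀ w₀ (corrMap W₀ v₀ (corrMap W₀ z y)) ≠ 0 := by
    rw [← hxy, ← hvv x, ← hww]
    intro h0
    apply hwv
    have h1 : S.s (corrMap W w (corrMap W v x)) = S.s 0 := by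
      rw [map_zero]
      exact h0
    exact S.s.injective h1
  have hcz : (Z.X.prod Q₀.X).IsCyc r (compCyc ops₀ z v₀) := compCyc_mem hz hv₀ hpr
  have hr : r ≤ (Z.X.prod Q₀.X).dim := by
    by_contra hr
    have h1 := W₀.cl_mem hcz
    rw [W₀.gr_eq_bot _ _ (by omega)] at h1
    have h2 : W₀.cl _ (compCyc ops₀ z v₀) = 0 := (Submodule.mem_bot _).1 h1
    have h3 : W₀.corr (W₀.cl _ (compCyc ops₀ z v₀)) =
        W₀.corr (W₀.cl _ v₀) ∘ₗ W₀.corr (W₀.cl _ z) := by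
      rw [corr_compCyc W₀ hv₀]
    have h4 : corrMap W₀ v₀ (corrMap W₀ z y) = 0 := by
      have h5 := congrArg (fun F => F y) h3
      beta_reduce at h5
      rw [h2, corr_zero, LinearMap.zero_apply] at h5
      exact h5.symm
    apply hne₀
    rw [h4]
    exact map_zero _
  refine ⟨k₀, _, 𝒱₀, ops₀, W₀, P₀, Q₀, Z, S, hP₀, hQ₀, hZ, v₀, p, r, z, hv₀, hvv, hz, hpr,
    hr, hodgeUpTo_of_hom hZP, hZQ, ?_⟩
  refine not_numZero_comp hP₀ hQ₀ hZ hv₀ hw₀ ?_ hz hpr hZP hr hne₀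
  rw [hql, dim_prod, dim_prod, S.fst.dim_eq, S.snd.dim_eq]

/-- The span of the images of the classes which become algebraic. -/
noncomputable def algSpan (W : WeilCohomology.{u, v} ops) (P Q : Polarized 𝒱) (l : ℕ) :
    Submodule W.K (W.H P.X) :=
  Submodule.span W.K {y | ∃ g h w, IsSymmetry W P Q l g h ∧ NumBecomes W P Q l w ∧
    isoMap g w = y}

lemma mem_algSpan {x : W.H P.X} (hx : NumBecomes W P Q l x) : x ∈ algSpan W P Q l :=
  Submodule.subset_span ⟨RingEquiv.refl _, RingEquiv.refl _, x, fun _ _ _ => rfl, hx, rfl⟩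

/-- The span is stable under symmetries. -/
lemma algSpan_stable {g : CohIso W W P.X P.X} {h : CohIso W W Q.X Q.X}
    {σ : CoefIso W W} (hσ : IsComparison W W P P σ g) (hg : IsSymmetry W P Q l g h) {x : W.H P.X}
    (hx : x ∈ algSpan W P Q l) : g x ∈ algSpan W P Q l := by
  refine Submodule.span_induction (p := fun x _ => g x ∈ algSpan W P Q l) ?_ ?_ ?_ ?_ hx
  · rintro _ ⟨g', h', w, hg', hw, rfl⟩
    exact Submodule.subset_span ⟨g'.trans g, h'.trans h, w, isSymmetry_trans hg' hg, hw, rfl⟩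
  · rw [map_zero]
    exact Submodule.zero_mem _
  · intro a b _ _ ha hb
    rw [map_add]
    exact Submodule.add_mem _ ha hb
  · intro c a _ ha
    rw [hσ.map.smul]
    exact Submodule.smul_mem _ _ ha

/-- If the span is everything, partial isomorphisms are detected. -/
theorem detected_of_span (h : ∀ x, x ∈ algSpan W P Q l) {v : (P.X.prod Q.X).Cycles}
    (hv : IsPartialIso W P.X Q.X l v) : DetectedSomewhere W P Q l v := by
  by_contra hnot
  obtain ⟨a, ha⟩ := hv.ne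
  apply ha
  refine Submodule.span_induction (p := fun x _ => corrMap W v x = 0) ?_ ?_ ?_ ?_ (h a)
  · rintro _ ⟨g, g', w, hg, hw, rfl⟩
    have h1 := hg v hv.isCyc w
    have h2 : corrMap W v w = 0 := by
      by_contra h3
      exact hnot (detected_of_numBecomes hv hw h3)
    rw [← h1, h2]
    exact map_zero g'
  · exact map_zero _
  · intro a b _ _ ha hb
    rw [corrMap, map_add]
    rw [corrMap] at ha hb
    rw [ha, hb, add_zero]
  · intro c a _ ha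
    rw [corrMap, map_smul]
    rw [corrMap] at ha
    rw [ha, smul_zero]

/-- A class which corresponds to an algebraic class at a place becomes algebraic. -/
lemma becomes_of_cycle {k₀ : Type u} [Field k₀] {𝒱₀ : VarClass k₀} {ops₀ : CycleOps 𝒱₀}
    {W₀ : WeilCohomology.{u, v} ops₀} {P₀ Q₀ : Polarized 𝒱₀} {S : Place W W₀ P Q P₀ Q₀}
    (hl : 2 ≤ l) (hdim : P.X.dim = 2) (hK : NumKnown W₀ P₀ Q₀ l)
    (hst : CorrespondencesSpecialize S.s S.t) (hts : CorrespondencesSpecialize S.t S.s)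
    {x : W.H P.X} {p : ℕ} (hp : p ≤ 2) {c : P₀.X.Cycles} (hc : P₀.X.IsCyc p c)
    (hx : isoMap S.s x = classOf W₀ P₀.X c) : NumBecomes W P Q l x := by
  obtain ⟨Z, hZ⟩ := hK.point
  have hd0 : P₀.X.dim = 2 := by rw [S.fst.dim_eq, hdim]
  refine ⟨k₀, _, 𝒱₀, ops₀, W₀, P₀, Q₀, ⟨Z, 0⟩, S, hK.fst, hK.snd, isLefschetz_point hZ, hst, hts,
    p, p + l - 2, ops₀.pull (snd Z P₀.X) c, 1, ops₀.pull_mem _ hc, by omega, ?_, ?_, ?_⟩
  · intro n hn hn2
    have h2 : 2 * n ≤ Z.dim + P₀.X.dim := hn2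
    exact hodge_point hZ hK.fst.isCyc hK.index n (by omega) hn2
  · intro n hn hn2
    exact hodge_point_num hZ hK.snd.isCyc hK.hodge n (by omega) hn2
  · rw [hx]
    change W₀.cl P₀.X c = W₀.corr (W₀.cl (Z.prod P₀.X) (ops₀.pull (snd Z P₀.X) c)) 1
    rw [W₀.cl_pull, corr_apply, map_one, mul_one]
    have h1 := push_snd (W := W₀) (1 : W₀.H Z) (W₀.cl P₀.X c)
    rw [map_one, one_mul, tr_one hZ, one_smul] at h1
    exact h1.symm

/-- **Surfaces whose transcendental classes are reached by divisors at places.** -/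
theorem detected_of_jumps (hl : 2 ≤ l) (h : EnoughJumps W P Q l)
    {v : (P.X.prod Q.X).Cycles} (hv : IsPartialIso W P.X Q.X l v) :
    DetectedSomewhere W P Q l v := by
  refine detected_of_span ?_ hv
  have hdim := h.dim
  have hK := h.known
  have triv : ∀ {p : ℕ}, p ≤ 2 → ∀ {c : P.X.Cycles}, P.X.IsCyc p c →
      W.cl P.X c ∈ algSpan W P Q l := by
    intro p hp c hc
    exact mem_algSpan (becomes_of_cycle (S := trivialPlace hK.fst.isCyc hK.snd.isCyc) hl hdim hK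
      (fun _ v hv => ⟨v, hv, fun _ => rfl⟩) (fun _ v hv => ⟨v, hv, fun _ => rfl⟩) hp hc rfl)
  obtain ⟨C, hC1, hC, hCP, hCQ, hCx⟩ := h.degreeOne
  have hcurve : ∀ (p : ℕ) (z : (C.X.prod P.X).Cycles) (y : W.H C.X), 1 ≤ p → p ≤ 2 →
      (C.X.prod P.X).IsCyc p z → corrMap W z y ∈ algSpan W P Q l := by
    intro p z y hp1 hp2 hz
    refine mem_algSpan ⟨k, _, 𝒱, ops, W, P, Q, C, trivialPlace hK.fst.isCyc hK.snd.isCyc,
      hK.fst, hK.snd, hC, (fun _ v hv => ⟨v, hv, fun _ => rfl⟩),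
      (fun _ v hv => ⟨v, hv, fun _ => rfl⟩), p, p + l - 2, z, y, hz, by omega, ?_, ?_, rfl⟩
    · intro n hn hn2
      have e1 : 2 * n ≤ C.X.dim + P.X.dim := hn2
      exact hCP n (by omega) hn2
    · intro n hn hn2
      exact hCQ n (by omega) hn2
  refine surface_span (algSpan W P Q l) hdim hK.fst triv ?_ ?_ ?_
  · intro a ha
    obtain ⟨z, y, hz, rfl⟩ := hCx a ha
    exact hcurve 1 z y le_rfl (by omega) hz
  · intro a ha
    obtain ⟨z, y, hz, rfl⟩ := hCx a ha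
    have e1 : corrMap W (ops.mul z (ops.pull (snd C.X P.X) P.D)) y =
        W.cl P.X P.D * corrMap W z y := by
      change W.corr (W.cl _ (ops.mul z (ops.pull (snd C.X P.X) P.D))) y =
        W.cl P.X P.D * W.corr (W.cl _ z) y
      rw [W.cl_mul, W.cl_pull, corr_apply, corr_apply,
        W.even_comm (W.cl_mem hz) (W.map (snd C.X P.X) (W.cl P.X P.D)), mul_assoc,
        W.mul_push (snd C.X P.X) (W.cl_mem hK.fst.isCyc)]
    rw [← e1]
    exact hcurve 2 _ y (by omega) le_rfl (ops.mul_mem hz (ops.pull_mem _ hK.fst.isCyc))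
  · refine span_of_jumps hdim hK.fst hK.index h.jumps ?_
      (fun g σ h' hσ hg y hy => algSpan_stable hσ hg hy) ?_
    · intro a ha
      refine Submodule.span_le.2 ?_ ha
      rintro _ ⟨w, hw, rfl⟩
      exact triv (by omega) hw
    · rintro x ⟨k₀, _, 𝒱₀, ops₀, W₀, P₀, Q₀, S, hK₀, hst, hts, c, hc, hxc⟩
      exact ⟨gr_of_divisor S hc hxc,
        mem_algSpan (becomes_of_cycle hl hdim hK₀ hst hts (by omega) hc hxc)⟩

end Pool.Agent.H846.Plc
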