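import Pool.Agent.H846.Hdt.IrrDefs

/-!
# Surfaces whose transcendental classes are reached by divisors at places, for the standard
conjecture of Hodge type modulo numerical equivalence: definitions
-/

open CategoryTheory AlgebraicGeometry

universe u v

namespace Pool.Agent.H846.Plc

open Pool.Agent.H914 Pool.Agent.H914.VarClass Pool.Agent.H914.VarClass.Obj
  Pool.Agent.H281R3.HT Pool.Agent.H846.Det Pool.Agent.H846.Hdt

variable {k : Type u} [Field k] {𝒱 : VarClass k} {ops : CycleOps 𝒱}
  {k₀ : Type u} [Field k₀] {𝒱₀ : VarClass k₀} {ops₀ : CycleOps 𝒱₀}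

/-- The varieties `X` and `Y` satisfy the hard Lefschetz theorem and the Lefschetz standard
conjecture, `X` satisfies the Hodge index theorem, and `Y` satisfies the standard conjecture of
Hodge type modulo numerical equivalence in the codimensions at most `l` (this is known if
`dim Y ≤ 3` or if `Y` is an abelian fourfold). The class of varieties contains a point. -/
structure NumKnown (W : WeilCohomology.{u, v} ops) (P Q : Polarized 𝒱) (l : ℕ) : Prop where
  fst : IsLefschetz W P
  snd : IsLefschetz W Q
  index : HomHodgeUpTo W P 1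
  hodge : HodgeUpTo W Q l
  point : ∃ Z : 𝒱.Obj, Z.dim = 0

/-- The classes in `H^1(X)`, for a surface `X`, are the images of classes of `C` under cycles of
codimension one on `C × X`, where `C` is a curve (or a point if `H^1(X) = 0`) which satisfies the
Lefschetz standard conjecture. The Hodge index theorem holds for `C × X`, and the standard
conjecture of Hodge type modulo numerical equivalence holds in the codimensions at most `l` for
`C × Y`. -/
def NumDegreeOneFromCurve (W : WeilCohomology.{u, v} ops) (P Q : Polarized 𝒱) (l : ℕ) : Prop :=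
  ∃ C : Polarized 𝒱, C.X.dim ≤ 1 ∧ IsLefschetz W C ∧ HomHodgeUpTo W (C.prod ops P) 1 ∧
    HodgeUpTo W (C.prod ops Q) l ∧
    ∀ x, OfDegree W P.X 1 x → ∃ z y, (C.X.prod P.X).IsCyc 1 z ∧ corrMap W z y = x

/-- At the place `(X₀, Y₀)` the class `x` of `X` corresponds to the class of a divisor on `X₀`.
Moreover all cycles on `X × Y` and on `Y × X` specialise. -/
def IsDivisorAt {W : WeilCohomology.{u, v} ops} {W₀ : WeilCohomology.{u, v} ops₀}
    {P Q : Polarized 𝒱} {P₀ Q₀ : Polarized 𝒱₀} (S : Place W W₀ P Q P₀ Q₀)
    (x : W.H P.X) : Prop :=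
  CorrespondencesSpecialize S.s S.t ∧ CorrespondencesSpecialize S.t S.s ∧
  ∃ c, P₀.X.IsCyc 1 c ∧ isoMap S.s x = classOf W₀ P₀.X c

/-- The class `x` becomes the class of a divisor at some place. -/
def BecomesDivisor (W : WeilCohomology.{u, v} ops) (P Q : Polarized 𝒱) (l : ℕ)
    (x : W.H P.X) : Prop :=
  ∃ (k₀ : Type u) (_ : Field k₀) (𝒱₀ : VarClass k₀) (ops₀ : CycleOps 𝒱₀)
    (W₀ : WeilCohomology.{u, v} ops₀) (P₀ Q₀ : Polarized 𝒱₀) (S : Place W W₀ P Q P₀ Q₀),
    NumKnown W₀ P₀ Q₀ l ∧ IsDivisorAt S x

/-- `X` is a surface such that for each subspace `U` of the transcendental part `T` of `H^2(X)`,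
different from `T`, which is stable under the symmetries, `X₀` has at one place `(X₀, Y₀)` of
`(X, Y)` a divisor outside `NS(X) + U`. If `T` is irreducible under the symmetries, this means that
`X₀` has more divisors than `X` at ONE place. -/
structure EnoughJumps (W : WeilCohomology.{u, v} ops) (P Q : Polarized 𝒱) (l : ℕ) : Prop where
  dim : P.X.dim = 2
  degreeOne : NumDegreeOneFromCurve W P Q l
  known : NumKnown W P Q l
  jumps : EnoughOutside W.K (InTranscendental W P) (BecomesDivisor W P Q l) (divisorClasses W P)
    fun φ => ∃ g, Extends W P Q l g ∧ isoMap g = φ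

end Pool.Agent.H846.Plc
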